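import Mathlib

set_option autoImplicit false

namespace Pool.Agent.Results.MP_fab4c6_an.DetBound

open Matrix Finset

/-- AM-GM in power form. -/
theorem amgm {ι : Type*} (s : Finset ι) (z : ι → ℝ) (hz : ∀ i ∈ s, 0 ≤ z i) (hs : 0 < s.card) :
    ∏ i ∈ s, z i ≤ ((∑ i ∈ s, z i) / s.card) ^ s.card := by
  have hc : (0 : ℝ) < s.card := by exact_mod_cast hs
  have h := Real.geom_mean_le_arith_mean_weighted s (fun _ => 1 / (s.card : ℝ)) z
    (fun _ _ => by positivity) (by simp [Finset.sum_const, hc.ne']) hz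
  have h1 : ∏ i ∈ s, z i = (∏ i ∈ s, z i ^ (1 / (s.card : ℝ))) ^ s.card := by
    rw [← Finset.prod_pow]
    apply Finset.prod_congr rfl
    intro i hi
    rw [← Real.rpow_natCast, ← Real.rpow_mul (hz i hi)]
    rw [one_div, inv_mul_cancel₀ hc.ne', Real.rpow_one]
  rw [h1]
  apply pow_le_pow_left₀
  · exact Finset.prod_nonneg fun i hi => Real.rpow_nonneg (hz i hi) _
  · refine h.trans (le_of_eq ?_)
    rw [Finset.sum_div]
    apply Finset.sum_congr rfl
    intro i _
    ring

theorem psd {n : ℕ} (J : Matrix (Fin n) (Fin n) ℝ) (hsymm : J.IsSymm)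
    (hpos : ∀ i j, 0 < J i j) (hbal : ∀ i, J i i = ∑ j ∈ univ.erase i, J i j) :
    J.PosSemidef := by
  refine Matrix.PosSemidef.of_dotProduct_mulVec_nonneg ?_ ?_
  · ext i j
    simp [Matrix.conjTranspose_apply, hsymm.apply i j]
  intro x
  have hs : ∀ i j, J i j = J j i := fun i j => (hsymm.apply i j).symm
  have key : star x ⬝ᵥ (J *ᵥ x) = (1 / 2) * ∑ i, ∑ j ∈ univ.erase i, J i j * (x i + x j) ^ 2 := by
    have h1 : star x ⬝ᵥ (J *ᵥ x) = ∑ i, ∑ j ∈ univ.erase i, (J i j * x i ^ 2 + J i j * x i * x j) := by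
      simp only [dotProduct, mulVec, star_trivial, Pi.star_apply]
      apply Finset.sum_congr rfl
      intro i _
      rw [← Finset.add_sum_erase univ _ (Finset.mem_univ i), mul_add, Finset.sum_add_distrib,
        ← Finset.sum_mul, ← hbal i, Finset.mul_sum]
      congr 1
      · ring
      · apply Finset.sum_congr rfl
        intro j _; ring
    have h2 : ∑ i, ∑ j ∈ univ.erase i, J i j * x i ^ 2 = ∑ i, ∑ j ∈ univ.erase i, J i j * x j ^ 2 := by
      have e : ∀ f : Fin n → Fin n → ℝ, ∑ i, ∑ j ∈ univ.erase i, f i j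
          = ∑ i, ∑ j, if j = i then 0 else f i j := by
        intro f
        apply Finset.sum_congr rfl
        intro i _
        rw [← Finset.add_sum_erase univ (fun j => if j = i then 0 else f i j) (Finset.mem_univ i)]
        simp only [if_true, zero_add]
        apply Finset.sum_congr rfl
        intro j hj
        rw [if_neg (Finset.ne_of_mem_erase hj)]
      rw [e, e, Finset.sum_comm]
      apply Finset.sum_congr rfl
      intro i _
      apply Finset.sum_congr rfl
      intro j _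
      by_cases h : i = j
      · simp [h]
      · rw [if_neg h, if_neg (Ne.symm h), hs]
    rw [h1]
    have h3 : ∑ i, ∑ j ∈ univ.erase i, J i j * (x i + x j) ^ 2
        = ∑ i, ∑ j ∈ univ.erase i, J i j * x i ^ 2 + ∑ i, ∑ j ∈ univ.erase i, J i j * x j ^ 2
          + 2 * ∑ i, ∑ j ∈ univ.erase i, J i j * x i * x j := by
      rw [← Finset.sum_add_distrib, Finset.mul_sum, ← Finset.sum_add_distrib]
      apply Finset.sum_congr rfl
      intro i _
      rw [← Finset.sum_add_distrib, Finset.mul_sum, ← Finset.sum_add_distrib]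
      apply Finset.sum_congr rfl
      intro j _; ring
    rw [h3, ← h2]
    simp only [Finset.sum_add_distrib]
    ring
  rw [key]
  apply mul_nonneg (by norm_num)
  exact Finset.sum_nonneg fun i _ => Finset.sum_nonneg fun j _ =>
    mul_nonneg (hpos i j).le (sq_nonneg _)

theorem main {n : ℕ} (hn : 3 ≤ n) (J : Matrix (Fin n) (Fin n) ℝ) (hsymm : J.IsSymm)
    (hpos : ∀ i j, 0 < J i j) (hbal : ∀ i, J i i = ∑ j ∈ univ.erase i, J i j) :
    J.det / ∏ i, J i i ≤ 2 * (1 - 1 / ((n : ℝ) - 1)) ^ (n - 1) := by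
  classical
  let r : Fin n → ℝ := fun i => Real.sqrt (J i i)
  have hr : ∀ i, 0 < r i := fun i => Real.sqrt_pos.mpr (hpos i i)
  have hr2 : ∀ i, r i * r i = J i i := fun i => Real.mul_self_sqrt (hpos i i).le
  let D : Matrix (Fin n) (Fin n) ℝ := diagonal fun i => (r i)⁻¹
  let M : Matrix (Fin n) (Fin n) ℝ := D * J * D
  have hJ := psd J hsymm hpos hbal
  have hM : M.PosSemidef := by
    have h1 := hJ.conjTranspose_mul_mul_same D
    have h2 : Dᴴ = D := by simp [D, diagonal_conjTranspose]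
    rwa [h2] at h1
  have hMij : ∀ i j, M i j = (r i)⁻¹ * J i j * (r j)⁻¹ := by
    intro i j
    simp [M, D, diagonal_mul, mul_diagonal]
  have hMdet : M.det = J.det / ∏ i, J i i := by
    simp only [M, det_mul, D, det_diagonal]
    have h1 : ∏ i, J i i = (∏ i, r i) * ∏ i, r i := by
      rw [← Finset.prod_mul_distrib]
      exact Finset.prod_congr rfl fun i _ => (hr2 i).symm
    rw [Finset.prod_inv_distrib, h1]
    have h2 : ∏ i, r i ≠ 0 := Finset.prod_ne_zero_iff.mpr fun i _ => (hr i).ne'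
    field_simp
  have hMtr : M.trace = n := by
    simp only [Matrix.trace, Matrix.diag]
    have : ∀ i, M i i = 1 := by
      intro i
      rw [hMij, ← hr2 i]
      have := (hr i).ne'
      field_simp
    simp [this]
  let lam : Fin n → ℝ := hM.1.eigenvalues
  have hlam0 : ∀ i, 0 ≤ lam i := hM.eigenvalues_nonneg
  have hsum : ∑ i, lam i = n := by
    have := hM.1.trace_eq_sum_eigenvalues
    rw [hMtr] at this
    simpa using this.symm
  have hprod : M.det = ∏ i, lam i := by
    have := hM.1.det_eq_prod_eigenvalues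
    simpa using this
  -- eigenvalue `2`
  have hex : ∃ i, lam i = 2 := by
    have hmem : (2 : ℝ) ∈ spectrum ℝ M := by
      rw [spectrum.mem_iff]
      intro hu
      have hv : (algebraMap ℝ (Matrix (Fin n) (Fin n) ℝ) 2 - M) *ᵥ r = 0 := by
        rw [sub_mulVec]
        funext i
        have h1 : (algebraMap ℝ (Matrix (Fin n) (Fin n) ℝ) 2 *ᵥ r) i = 2 * r i := by
          rw [Matrix.algebraMap_eq_diagonal, mulVec_diagonal]
          simp
        have h2 : (M *ᵥ r) i = 2 * r i := by
          simp only [mulVec, dotProduct]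
          have h3 : ∀ j, M i j * r j = (r i)⁻¹ * J i j := by
            intro j
            rw [hMij, mul_assoc, inv_mul_cancel₀ (hr j).ne', mul_one]
          simp only [h3]
          rw [← Finset.mul_sum, ← Finset.add_sum_erase univ _ (Finset.mem_univ i), ← hbal i,
            ← hr2 i]
          have := (hr i).ne'
          field_simp
          ring
        simp only [Pi.sub_apply, h1, h2, sub_self, Pi.zero_apply]
      have hr0 : r = 0 := by
        obtain ⟨u, hu⟩ := hu
        have h4 : (↑u⁻¹ : Matrix (Fin n) (Fin n) ℝ) *ᵥ ((u : Matrix (Fin n) (Fin n) ℝ) *ᵥ r) = r := by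
          rw [mulVec_mulVec, Units.inv_mul, one_mulVec]
        rw [← h4, hu, hv, mulVec_zero]
      have i0 : Fin n := ⟨0, by omega⟩
      have := congrFun hr0 i0
      exact (hr i0).ne' this
    rw [hM.1.spectrum_real_eq_range_eigenvalues] at hmem
    exact hmem
  obtain ⟨i₀, hi₀⟩ := hex
  have hcard : (univ.erase i₀).card = n - 1 := by
    rw [Finset.card_erase_of_mem (Finset.mem_univ _)]; simp
  have hag := amgm (univ.erase i₀) lam (fun i _ => hlam0 i) (by rw [hcard]; omega)
  have hsum' : ∑ i ∈ univ.erase i₀, lam i = (n : ℝ) - 2 := by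
    have := Finset.add_sum_erase univ lam (Finset.mem_univ i₀)
    rw [hsum, hi₀] at this
    linarith
  rw [← hMdet, hprod, ← Finset.mul_prod_erase univ lam (Finset.mem_univ i₀), hi₀]
  apply mul_le_mul_of_nonneg_left _ (by norm_num)
  refine hag.trans (le_of_eq ?_)
  rw [hcard, hsum']
  have hn1 : ((n - 1 : ℕ) : ℝ) = (n : ℝ) - 1 := by
    rw [Nat.cast_sub (by omega)]; simp
  rw [hn1]
  congr 1
  have : (n : ℝ) - 1 ≠ 0 := by
    have : (3 : ℝ) ≤ n := by exact_mod_cast hn
    linarith
  field_simp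
  ring

theorem det_S {n : ℕ} (hn : 3 ≤ n) :
    (((n : ℝ) - 2) • (1 : Matrix (Fin n) (Fin n) ℝ) + Matrix.of fun _ _ => 1).det
      / ((n : ℝ) - 1) ^ n = 2 * (1 - 1 / ((n : ℝ) - 1)) ^ (n - 1) := by
  have hn3 : (3 : ℝ) ≤ n := by exact_mod_cast hn
  have h2 : (n : ℝ) - 2 ≠ 0 := by linarith
  have h1 : (n : ℝ) - 1 ≠ 0 := by linarith
  have e : ((n : ℝ) - 2) • (1 : Matrix (Fin n) (Fin n) ℝ) + (Matrix.of fun _ _ => 1)
      = ((n : ℝ) - 2) • (1 + replicateCol Unit (fun _ : Fin n => 1 / ((n : ℝ) - 2)) *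
        replicateRow Unit (fun _ : Fin n => (1 : ℝ))) := by
    ext i j
    simp only [Matrix.add_apply, Matrix.smul_apply, of_apply, mul_apply, replicateCol_apply, replicateRow_apply,
      Finset.univ_unique, Finset.sum_singleton, smul_eq_mul]
    field_simp
  rw [e, det_smul, det_one_add_replicateCol_mul_replicateRow]
  simp only [Fintype.card_fin, dotProduct, one_mul, Finset.sum_const, Finset.card_univ,
    nsmul_eq_mul]
  obtain ⟨m, rfl⟩ : ∃ m, n = m + 1 := ⟨n - 1, by omega⟩
  have e1 : 1 - 1 / (((m + 1 : ℕ) : ℝ) - 1) = (((m + 1 : ℕ) : ℝ) - 2) / (((m + 1 : ℕ) : ℝ) - 1) := by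
    field_simp; ring
  rw [e1, div_pow]
  simp only [Nat.add_sub_cancel]
  rw [pow_succ (((m + 1 : ℕ) : ℝ) - 1), pow_succ (((m + 1 : ℕ) : ℝ) - 2)]
  field_simp
  ring

/-- The determinantal inequality of Hillar and Wibisono for positive diagonally balanced symmetric
matrices, with the value of the right-hand side. -/
theorem result (n : ℕ) (hn : 3 ≤ n) :
    (∀ J : Matrix (Fin n) (Fin n) ℝ, J.IsSymm → (∀ i j, 0 < J i j) →
      (∀ i, J i i = ∑ j ∈ univ.erase i, J i j) →
      J.det / ∏ i, J i i ≤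
        (((n : ℝ) - 2) • (1 : Matrix (Fin n) (Fin n) ℝ) + Matrix.of fun _ _ => 1).det
          / ((n : ℝ) - 1) ^ n) ∧
    (((n : ℝ) - 2) • (1 : Matrix (Fin n) (Fin n) ℝ) + Matrix.of fun _ _ => 1).det
      / ((n : ℝ) - 1) ^ n = 2 * (1 - 1 / ((n : ℝ) - 1)) ^ (n - 1) := by
  refine ⟨fun J h1 h2 h3 => ?_, det_S hn⟩
  rw [det_S hn]
  exact main hn J h1 h2 h3

end Pool.Agent.Results.MP_fab4c6_an.DetBound
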